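import Pool.Agent.helper52.T1.SpecF

/-!
# Row `t1:PSE` (project T1, MP_07c750_an): expectations of independent labels
-/

set_option autoImplicit false

open scoped MatrixGroups ContDiff Topology UpperHalfPlane ComplexConjugate
open UpperHalfPlane MeasureTheory Filter Set

namespace Pool.Agent.T1

open Pool.Agent.RS Pool.Agent.MS Pool.Agent.HV

theorem PSE_mass {M : ℕ} (x : Fin M → ℝ) : ∑ p : Fin M → Bool, ∏ i : Fin M, (if p i = true then x i else 1 - x i) = 1 := by
  have h := Finset.prod_univ_sum (fun _ : Fin M => (Finset.univ : Finset Bool)) (fun i b => if b = true then x i else 1 - x i)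
  rw [Fintype.piFinset_univ] at h
  rw [← h]
  refine Finset.prod_eq_one fun i _ => ?_
  simp

theorem PSE_one {M : ℕ} (x : Fin M → ℝ) (k : Fin M) :
    ∑ p : Fin M → Bool, (∏ i : Fin M, (if p i = true then x i else 1 - x i)) * (if p k = true then 1 else 0) = x k := by
  have h := Finset.prod_univ_sum (fun _ : Fin M => (Finset.univ : Finset Bool))
    (fun i b => if i = k then (if b = true then x i else 0) else (if b = true then x i else 1 - x i))
  rw [Fintype.piFinset_univ] at h
  have h1 : ∀ p : Fin M → Bool, (∏ i : Fin M, (if p i = true then x i else 1 - x i)) * (if p k = true then 1 else 0) =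
      ∏ i : Fin M, (if i = k then (if p i = true then x i else 0) else (if p i = true then x i else 1 - x i)) := by
    intro p
    rw [← Finset.mul_prod_erase Finset.univ _ (Finset.mem_univ k),
      ← Finset.mul_prod_erase Finset.univ (fun i => if i = k then (if p i = true then x i else 0) else (if p i = true then x i else 1 - x i)) (Finset.mem_univ k)]
    have h2 : ∏ i ∈ Finset.univ.erase k, (if i = k then (if p i = true then x i else 0) else (if p i = true then x i else 1 - x i)) =
        ∏ i ∈ Finset.univ.erase k, (if p i = true then x i else 1 - x i) := by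
      refine Finset.prod_congr rfl fun i hi => ?_
      rw [if_neg (Finset.ne_of_mem_erase hi)]
    rw [h2]
    by_cases hp : p k = true
    · simp [hp]
    · simp [hp]
  rw [Finset.sum_congr rfl fun p _ => h1 p, ← h,
    ← Finset.mul_prod_erase Finset.univ _ (Finset.mem_univ k)]
  have h3 : ∏ i ∈ Finset.univ.erase k, ∑ b : Bool, (if i = k then (if b = true then x i else 0) else (if b = true then x i else 1 - x i)) = 1 := by
    refine Finset.prod_eq_one fun i hi => ?_
    simp [Finset.ne_of_mem_erase hi]
  rw [h3]
  simp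

theorem PSE_Kc {M : ℕ} (p : Fin M → Bool) : (Kc (ex p) 0 M : ℝ) = ∑ k : Fin M, (if p k = true then (1 : ℝ) else 0) := by
  unfold Kc
  rw [Finset.card_filter, Nat.Ico_zero_eq_range, Finset.sum_range]
  push_cast
  refine Finset.sum_congr rfl fun k _ => ?_
  have h : ex p (k : ℕ) = p k := by
    unfold ex
    simp
  rw [h]

theorem PSE_proof : PSE_stmt := by
  intro κ N0 M g hκ
  have hs : ∀ p : Fin M → Bool, Ps κ N0 M {p} g =
      ∏ i : Fin M, if p i = true then κ (g * aM ((i : ℕ) * Real.log N0)) else 1 - κ (g * aM ((i : ℕ) * Real.log N0)) := by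
    intro p
    unfold Ps
    rw [Finset.sum_singleton]
  refine ⟨fun S => ⟨?_, ?_⟩, ?_, ?_⟩
  · unfold Ps
    refine Finset.sum_nonneg fun p _ => Finset.prod_nonneg fun i _ => ?_
    have h := hκ (g * aM ((i : ℕ) * Real.log N0))
    split_ifs
    · exact h.1
    · linarith [h.2]
  · rw [Finset.sum_congr rfl fun p _ => hs p]
    rfl
  · rw [Finset.sum_congr rfl fun p _ => hs p]
    exact PSE_mass fun i : Fin M => κ (g * aM ((i : ℕ) * Real.log N0))
  · have h1 : ∀ p : Fin M → Bool, Ps κ N0 M {p} g * (Kc (ex p) 0 M : ℝ) = ∑ k : Fin M,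
        (∏ i : Fin M, if p i = true then κ (g * aM ((i : ℕ) * Real.log N0)) else 1 - κ (g * aM ((i : ℕ) * Real.log N0))) * (if p k = true then 1 else 0) := by
      intro p
      rw [hs p, PSE_Kc, Finset.mul_sum]
    rw [Finset.sum_congr rfl fun p _ => h1 p, Finset.sum_comm, Finset.sum_range]
    exact Finset.sum_congr rfl fun k _ => PSE_one (fun i : Fin M => κ (g * aM ((i : ℕ) * Real.log N0))) k

end Pool.Agent.T1
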