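import Pool.Agent.helper47.T1.SpecE1
import Pool.Agent.helper92.RS.EF1

/-!
# Row `t1:QEF` (project T1, MP_07c750_an): the frame bound away from the spectrum, with polynomial constants
-/

set_option autoImplicit false

open scoped MatrixGroups ContDiff Topology UpperHalfPlane ComplexConjugate
open UpperHalfPlane MeasureTheory Filter Set

namespace Pool.Agent.T1

open Pool.Agent.RS Pool.Agent.MS

theorem QEF_mono {J J' : ℕ} {M M' : ℝ} {β : ℝ → ℝ} (h : SBM J M β) (hJ : J' ≤ J) (hM : M ≤ M') : SBM J' M' β :=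
  ⟨h.sb, fun j hj x => (h.bd j (hj.trans hJ) x).trans hM⟩

theorem QEF_sup {J : ℕ} {M : ℝ} {β : ℝ → ℝ} (h : SBM J M β) (x : ℝ) : |β x| ≤ M := by
  have h1 := h.bd 0 (Nat.zero_le _) x
  rwa [iteratedDeriv_zero] at h1

theorem QEF_pc {J1 J2 : ℕ} {M1 M2 : ℝ} {β α : ℝ → ℝ} (hβ : SBM J1 M1 β) (hα : SBM J2 M2 α) (h1 : 0 ≤ M1) (z : ℍ) :
    ‖pc β α z‖ ≤ M1 * M2 := by
  unfold pc
  rw [Complex.norm_real, Real.norm_eq_abs, abs_mul]
  exact mul_le_mul (QEF_sup hβ _) (QEF_sup hα _) (abs_nonneg _) h1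

theorem QEF_qn0 (F : Set ℍ) (c : ℍ → ℂ) (r : ℝ) (φ : ℍ → ℂ) : 0 ≤ qn F c r φ :=
  integral_nonneg fun g => by positivity

theorem QEF_nn0 (F : Set ℍ) (φ : ℍ → ℂ) : 0 ≤ nn F φ := integral_nonneg fun z => by positivity

/-- linearity -/
theorem QEF_lin (hGFD : GFD_stmt) (hGBD : GBD_stmt) (hFL0 : FL0_stmt) {Γ : Subgroup SL(2, ℝ)} {F : Set ℍ}
    {a b φ : ℍ → ℂ} (r : ℝ) (hΓ : QU.SurfaceGroup Γ) (hF : QU.NiceDom Γ F) (ha : TB (1 / 4) a) (hb : TB (1 / 4) b)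
    (hab : TB (1 / 4) (fun z => -(a z + b z))) (hφ : InvC Γ φ) :
    qn F (fun z => -(a z + b z)) r φ ≤ 2 * qn F a r φ + 2 * qn F b r φ := by
  have i0 := EF1_int hGFD hGBD hFL0 r hΓ hF hab hφ
  have i1 := EF1_int hGFD hGBD hFL0 r hΓ hF ha hφ
  have i2 := EF1_int hGFD hGBD hFL0 r hΓ hF hb hφ
  have t1 := hFL0.2.1 (1 / 4) r a ha
  have t2 := hFL0.2.1 (1 / 4) r b hb
  have hpt : ∀ g, ‖Wf (pk r (fun z => -(a z + b z))) φ g‖ ^ 2 ≤ 2 * ‖Wf (pk r a) φ g‖ ^ 2 + 2 * ‖Wf (pk r b) φ g‖ ^ 2 := by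
    intro g
    have hφg : Continuous (fun z : ℍ => φ (g • z)) := hφ.1.comp (continuous_const_smul g)
    have j1 : Integrable (fun z : ℍ => pk r a z * φ (g • z)) := ((EF1_cont t1.1).mul hφg).integrable_of_hasCompactSupport t1.2.mul_right
    have j2 : Integrable (fun z : ℍ => pk r b z * φ (g • z)) := ((EF1_cont t2.1).mul hφg).integrable_of_hasCompactSupport t2.2.mul_right
    have e : Wf (pk r (fun z => -(a z + b z))) φ g = -(Wf (pk r a) φ g + Wf (pk r b) φ g) := by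
      unfold Wf
      rw [← integral_add j1 j2, ← integral_neg]
      congr 1
      funext z
      unfold pk
      ring
    rw [e, norm_neg]
    have h1 := norm_add_le (Wf (pk r a) φ g) (Wf (pk r b) φ g)
    have h2 := norm_nonneg (Wf (pk r a) φ g + Wf (pk r b) φ g)
    have h3 := pow_le_pow_left₀ h2 h1 2
    have h4 := sq_nonneg (‖Wf (pk r a) φ g‖ - ‖Wf (pk r b) φ g‖)
    nlinarith
  unfold qn iR
  rw [← integral_const_mul, ← integral_const_mul, ← integral_add (i1.const_mul 2) (i2.const_mul 2)]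
  exact integral_mono i0 ((i1.const_mul 2).add (i2.const_mul 2)) hpt

/-- the two norms on the right hand side of FL4, by the trivial bound -/
theorem QEF_two {KT KL : ℝ}
    (hT : ∀ (c : ℍ → ℂ) (M : ℝ), TB (1 / 4) c → (∀ z, ‖c z‖ ≤ M) → ∀ (Γ : Subgroup SL(2, ℝ)) (F : Set ℍ) (r : ℝ) (φ : ℍ → ℂ), QU.SurfaceGroup Γ → QU.NiceDom Γ F → InvC Γ φ → qn F c r φ ≤ KT * M ^ 2 * nn F φ)
    (hP : ∀ β α : ℝ → ℝ, SB (1 / 4) β → SB (1 / 4) α → QU.dY (pc β α) = pc β (deriv α) ∧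
      QU.lap (pc β α) = fun z => -(pc (deriv (deriv β)) (fun τ => Real.exp (2 * τ) * α τ) z + pc β (fun τ => deriv (deriv α) τ - deriv α τ) z))
    (hL : ∀ (J : ℕ) (M : ℝ) (β : ℝ → ℝ), J ≤ 4 → SBM J M β → 0 ≤ M ∧ SBM J (KL * M) (fun τ => Real.exp (2 * τ) * β τ) ∧ (1 ≤ J → SBM (J - 1) M (deriv β)) ∧ (2 ≤ J → SBM (J - 2) M (deriv (deriv β)) ∧ SBM (J - 2) (2 * M) (fun τ => deriv (deriv β) τ - deriv β τ)))
    (hFL0 : FL0_stmt) (hCV1 : CV1_stmt)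
    {Γ : Subgroup SL(2, ℝ)} {F : Set ℍ} {φ : ℍ → ℂ} (r : ℝ) (hΓ : QU.SurfaceGroup Γ) (hF : QU.NiceDom Γ F) (hφ : InvC Γ φ)
    {β α : ℝ → ℝ} {M1 M2 : ℝ} (hβ : SBM 2 M1 β) (hα : SBM 2 M2 α) :
    qn F (QU.dY (pc β α)) r φ + qn F (QU.lap (pc β α)) r φ ≤ KT * (1 + (KL + 2) ^ 2) * (M1 * M2) ^ 2 * nn F φ := by
  obtain ⟨h10, -, -, h12⟩ := hL 2 M1 β (by norm_num) hβ
  obtain ⟨h20, h2e, h21, h22⟩ := hL 2 M2 α (by norm_num) hα
  obtain ⟨hb2, -⟩ := h12 le_rfl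
  obtain ⟨-, ha2⟩ := h22 le_rfl
  have ha1 := h21 (by norm_num)
  have hTB : TB (1 / 4) (pc β α) := (hCV1.2.2 (1 / 4) α β hα.sb hβ.sb).1
  obtain ⟨-, -, hdY, -, hlap, -⟩ := hFL0.1 (1 / 4) _ hTB
  obtain ⟨e1, e2⟩ := hP β α hβ.sb hα.sb
  have s1 : ∀ z, ‖QU.dY (pc β α) z‖ ≤ M1 * M2 := by
    intro z
    rw [e1]
    exact QEF_pc hβ ha1 h10 z
  have s2 : ∀ z, ‖QU.lap (pc β α) z‖ ≤ (KL + 2) * (M1 * M2) := by
    intro z
    rw [e2]
    have h1 := QEF_pc hb2 h2e h10 z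
    have h2 := QEF_pc hβ ha2 h10 z
    have h3 := norm_add_le (pc (deriv (deriv β)) (fun τ => Real.exp (2 * τ) * α τ) z) (pc β (fun τ => deriv (deriv α) τ - deriv α τ) z)
    show ‖-(pc (deriv (deriv β)) (fun τ => Real.exp (2 * τ) * α τ) z + pc β (fun τ => deriv (deriv α) τ - deriv α τ) z)‖ ≤ _
    rw [norm_neg]
    refine h3.trans ((add_le_add h1 h2).trans (le_of_eq ?_))
    ring
  have q1 := hT _ _ hdY s1 Γ F r φ hΓ hF hφ
  have q2 := hT _ _ hlap s2 Γ F r φ hΓ hF hφ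
  refine (add_le_add q1 q2).trans (le_of_eq ?_)
  ring

/-- one step with explicit constants -/
theorem QEF_step (hGFD : GFD_stmt) (hGBD : GBD_stmt) (hFL0 : FL0_stmt) (hFL4 : FL4_stmt) (hCV1 : CV1_stmt)
    (hP : ∀ β α : ℝ → ℝ, SB (1 / 4) β → SB (1 / 4) α → QU.dY (pc β α) = pc β (deriv α) ∧
      QU.lap (pc β α) = fun z => -(pc (deriv (deriv β)) (fun τ => Real.exp (2 * τ) * α τ) z + pc β (fun τ => deriv (deriv α) τ - deriv α τ) z))
    {Γ : Subgroup SL(2, ℝ)} {F : Set ℍ} {φ : ℍ → ℂ} (r lam : ℝ) (hr : 1 ≤ r) (hΓ : QU.SurfaceGroup Γ) (hF : QU.NiceDom Γ F) (hφ : EigL Γ lam φ)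
    {β α : ℝ → ℝ} (hβ : SB (1 / 4) β) (hα : SB (1 / 4) α) (hβ2 : SB (1 / 4) (deriv (deriv β))) (hαe : SB (1 / 4) (fun τ => Real.exp (2 * τ) * α τ))
    (hα2 : SB (1 / 4) (fun τ => deriv (deriv α) τ - deriv α τ)) :
    (1 / 4 + r ^ 2 - lam) ^ 2 * qn F (pc β α) r φ ≤ 18 * r ^ 2 * (qn F (pc β (deriv α)) r φ +
      (2 * qn F (pc (deriv (deriv β)) (fun τ => Real.exp (2 * τ) * α τ)) r φ + 2 * qn F (pc β (fun τ => deriv (deriv α) τ - deriv α τ)) r φ)) := by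
  have hTB : TB (1 / 4) (pc β α) := (hCV1.2.2 (1 / 4) α β hα hβ).1
  have hTa : TB (1 / 4) (pc (deriv (deriv β)) (fun τ => Real.exp (2 * τ) * α τ)) := (hCV1.2.2 (1 / 4) _ _ hαe hβ2).1
  have hTb : TB (1 / 4) (pc β (fun τ => deriv (deriv α) τ - deriv α τ)) := (hCV1.2.2 (1 / 4) _ _ hα2 hβ).1
  obtain ⟨-, -, hdY, -, hlap, -⟩ := hFL0.1 (1 / 4) _ hTB
  obtain ⟨e1, e2⟩ := hP β α hβ hα
  have st0 := EF1_step hGFD hGBD hFL0 hFL4 r lam hr hΓ hF hTB hφ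
  rw [e2] at hlap
  have l0 := QEF_lin hGFD hGBD hFL0 r hΓ hF hTa hTb hlap (EF1_invC hφ)
  rw [e1, e2] at st0
  refine st0.trans (mul_le_mul_of_nonneg_left ?_ (by positivity))
  linarith

theorem QEF_proof (h1 : QB3_stmt) (h2 : QTR_stmt) (h3 : QLP_stmt) (h4 : QBT_stmt) (hGFD : GFD_stmt) (hGBD : GBD_stmt)
    (hFL0 : FL0_stmt) (hFL4 : FL4_stmt) (hGR2 : GR2_stmt) (hCV1 : CV1_stmt) : QEF_stmt := by
  obtain ⟨K3, hK3, hB3⟩ := h1
  obtain ⟨KT, hKT, hT⟩ := h2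
  obtain ⟨hP, KL, hKL, hL⟩ := h3
  obtain ⟨KB, hKB, hBT⟩ := h4
  set KM : ℝ := 18 * K3 * (1 + 2 * KL ^ 4 + 32) with hKMd
  set KC : ℝ := KT * (1 + (KL + 2) ^ 2) with hKCd
  set KF : ℝ := KC * (1 + 2 * KL ^ 2 + 8) with hKFd
  have hKC0 : 0 ≤ KC := by positivity
  have hKM1 : 1 ≤ KM := by
    rw [hKMd]
    have : 0 ≤ KL ^ 4 := by positivity
    nlinarith
  refine ⟨KM + 324 * 200 ^ 4 * KF, by have : 0 ≤ 324 * 200 ^ 4 * KF := by positivity
                                      linarith, ?_⟩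
  intro β α M hβ hα Γ F r R0 lam φ hΓ hF hR0 hr hφ hs
  have hφ' := EF1_invC hφ
  have hr1 : 1 ≤ r := by linarith
  have hr0 : 0 < r := by linarith
  have hR00 : 0 < R0 := by linarith
  have hnn := QEF_nn0 F φ
  -- the profiles
  obtain ⟨hM0, -, -, hb2⟩ := hL 4 M β le_rfl hβ
  obtain ⟨-, hae, ha1, ha2⟩ := hL 4 M α le_rfl hα
  have hb2' := (hb2 (by norm_num)).1
  have ha1' := ha1 (by norm_num)
  have ha2' := (ha2 (by norm_num)).2
  have hMK : M ≤ KL * M := by nlinarith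
  have hM2 : M ≤ 2 * M := by linarith
  have st0 := QEF_step hGFD hGBD hFL0 hFL4 hCV1 hP r lam hr1 hΓ hF hφ hβ.sb hα.sb hb2'.sb hae.sb ha2'.sb
  have hq := QEF_qn0 F (pc β α) r φ
  -- far
  have hfar : r ^ 2 / 200 ≤ |1 / 4 + r ^ 2 - lam| → qn F (pc β α) r φ ≤ 324 * 200 ^ 4 * KF * M ^ 4 / (R0 ^ 2 * r) * nn F φ := by
    intro hLL
    have step : ∀ (β' α' : ℝ → ℝ) (M1 M2 : ℝ), SBM 2 M1 β' → SBM 2 M2 α' →
        (1 / 4 + r ^ 2 - lam) ^ 2 * qn F (pc β' α') r φ ≤ 18 * r ^ 2 * (KC * (M1 * M2) ^ 2 * nn F φ) := by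
      intro β' α' M1 M2 hβ' hα'
      have hTB : TB (1 / 4) (pc β' α') := (hCV1.2.2 (1 / 4) α' β' hα'.sb hβ'.sb).1
      have s0 := EF1_step hGFD hGBD hFL0 hFL4 r lam hr1 hΓ hF hTB hφ
      refine s0.trans (mul_le_mul_of_nonneg_left ?_ (by positivity))
      exact QEF_two hT hP hL hFL0 hCV1 r hΓ hF hφ' hβ' hα'
    have st1 := step _ _ M M (QEF_mono hβ (by norm_num) le_rfl) (QEF_mono ha1' (by norm_num) le_rfl)
    have st2 := step _ _ M (KL * M) hb2' (QEF_mono hae (by norm_num) le_rfl)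
    have st3 := step _ _ M (2 * M) (QEF_mono hβ (by norm_num) le_rfl) ha2'
    have hL2 : (r ^ 2 / 200) ^ 2 ≤ (1 / 4 + r ^ 2 - lam) ^ 2 := by
      rw [← sq_abs (1 / 4 + r ^ 2 - lam)]
      exact pow_le_pow_left₀ (by positivity) hLL 2
    set L : ℝ := (1 / 4 + r ^ 2 - lam) ^ 2 with hLd
    have hL0 : 0 ≤ L := sq_nonneg _
    have e1 : L ^ 2 * qn F (pc β α) r φ ≤ 324 * r ^ 4 * (KF * M ^ 4 * nn F φ) := by
      have g1 := mul_le_mul_of_nonneg_left st0 hL0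
      have g2 : L * (qn F (pc β (deriv α)) r φ +
          (2 * qn F (pc (deriv (deriv β)) (fun τ => Real.exp (2 * τ) * α τ)) r φ + 2 * qn F (pc β (fun τ => deriv (deriv α) τ - deriv α τ)) r φ)) ≤
          18 * r ^ 2 * (KF * M ^ 4 * nn F φ) := by
        have : 18 * r ^ 2 * (KF * M ^ 4 * nn F φ) = 18 * r ^ 2 * (KC * (M * M) ^ 2 * nn F φ) + 2 * (18 * r ^ 2 * (KC * (M * (KL * M)) ^ 2 * nn F φ)) +
            2 * (18 * r ^ 2 * (KC * (M * (2 * M)) ^ 2 * nn F φ)) := by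
          rw [hKFd]
          ring
        rw [this]
        linarith
      have g3 := mul_le_mul_of_nonneg_left g2 (show 0 ≤ 18 * r ^ 2 by positivity)
      calc L ^ 2 * qn F (pc β α) r φ = L * (L * qn F (pc β α) r φ) := by ring
        _ ≤ _ := g1
        _ = 18 * r ^ 2 * (L * (qn F (pc β (deriv α)) r φ +
          (2 * qn F (pc (deriv (deriv β)) (fun τ => Real.exp (2 * τ) * α τ)) r φ + 2 * qn F (pc β (fun τ => deriv (deriv α) τ - deriv α τ)) r φ))) := by ring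
        _ ≤ _ := g3
        _ = 324 * r ^ 4 * (KF * M ^ 4 * nn F φ) := by ring
    have e2 : ((r ^ 2 / 200) ^ 2) ^ 2 * qn F (pc β α) r φ ≤ L ^ 2 * qn F (pc β α) r φ :=
      mul_le_mul_of_nonneg_right (pow_le_pow_left₀ (by positivity) hL2 2) hq
    have hX0 : 0 ≤ KF * M ^ 4 * nn F φ := by positivity
    have e3 : r ^ 8 * qn F (pc β α) r φ ≤ 324 * 200 ^ 4 * r ^ 4 * (KF * M ^ 4 * nn F φ) := by
      have e4 : ((r ^ 2 / 200) ^ 2) ^ 2 = r ^ 8 / 200 ^ 4 := by ring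
      rw [e4] at e2
      have e5 := e2.trans e1
      rw [div_mul_eq_mul_div, div_le_iff₀ (by norm_num)] at e5
      linarith
    have e6 : qn F (pc β α) r φ ≤ 324 * 200 ^ 4 * (KF * M ^ 4 * nn F φ) / r ^ 4 := by
      rw [le_div_iff₀ (by positivity)]
      have e7 : r ^ 4 * (qn F (pc β α) r φ * r ^ 4) ≤ r ^ 4 * (324 * 200 ^ 4 * (KF * M ^ 4 * nn F φ)) := by
        calc r ^ 4 * (qn F (pc β α) r φ * r ^ 4) = r ^ 8 * qn F (pc β α) r φ := by ring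
          _ ≤ 324 * 200 ^ 4 * r ^ 4 * (KF * M ^ 4 * nn F φ) := e3
          _ = r ^ 4 * (324 * 200 ^ 4 * (KF * M ^ 4 * nn F φ)) := by ring
      exact le_of_mul_le_mul_left e7 (by positivity)
    refine e6.trans ?_
    have e8 : R0 ^ 2 * r ≤ r ^ 4 := by
      have e9 : R0 ≤ r := by linarith
      have e10 : R0 ^ 2 ≤ r ^ 2 := pow_le_pow_left₀ hR00.le e9 2
      have e11 : R0 ^ 2 * r ≤ r ^ 2 * r := mul_le_mul_of_nonneg_right e10 hr0.le
      have e12 : r ^ 3 * 1 ≤ r ^ 3 * r := mul_le_mul_of_nonneg_left hr1 (by positivity)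
      nlinarith
    rw [div_mul_eq_mul_div, show 324 * 200 ^ 4 * KF * M ^ 4 * nn F φ = 324 * 200 ^ 4 * (KF * M ^ 4 * nn F φ) by ring]
    exact div_le_div_of_nonneg_left (by positivity) (by positivity) e8
  -- middle
  have hmid : ∀ s : ℝ, 0 ≤ s → lam = 1 / 4 + s ^ 2 → |s - r| ≤ r / 100 →
      qn F (pc β α) r φ ≤ KM * M ^ 4 / (R0 ^ 2 * r) * nn F φ := by
    intro s hs0 hlam hsr
    have hsR := hs s hs0 hlam
    have hφs : EigL Γ (1 / 4 + s ^ 2) φ := by rw [← hlam]; exact hφ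
    have one : ∀ (β' α' : ℝ → ℝ) (M' : ℝ), SBM 1 M' β' → SBM 1 M' α' →
        r * qn F (pc β' α') r φ ≤ K3 * M' ^ 4 * nn F φ := by
      intro β' α' M' hβ' hα'
      obtain ⟨hTB, hcc, -, -⟩ := hCV1.2.2 (1 / 4) α' β' hα'.sb hβ'.sb
      have g := (hGR2 Γ F hΓ hF s φ hφs).2 _ r hTB
      have k := (hB3 _ _ (hBT β' α' M' hβ' hα').1 r s hr1 hsr).2.2.2.2
      rw [g, hcc]
      have k2 := mul_le_mul_of_nonneg_left k hnn
      calc r * (nn F φ * bk (pr β' α') r s) = nn F φ * (r * bk (pr β' α') r s) := by ring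
        _ ≤ nn F φ * (K3 * (M' ^ 2) ^ 2) := k2
        _ = K3 * M' ^ 4 * nn F φ := by ring
    have g1 := one _ _ M (QEF_mono hβ (by norm_num) le_rfl) (QEF_mono ha1' (by norm_num) le_rfl)
    have g2 := one _ _ (KL * M) (QEF_mono hb2' (by norm_num) hMK) (QEF_mono hae (by norm_num) le_rfl)
    have g3 := one _ _ (2 * M) (QEF_mono hβ (by norm_num) hM2) (QEF_mono ha2' (by norm_num) le_rfl)
    have hLL : (R0 * r) ^ 2 ≤ (1 / 4 + r ^ 2 - lam) ^ 2 := by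
      have h1 : 1 / 4 + r ^ 2 - lam = -((s - r) * (s + r)) := by
        rw [hlam]
        ring
      rw [h1, neg_sq, ← sq_abs ((s - r) * (s + r)), abs_mul]
      refine pow_le_pow_left₀ (by positivity) ?_ 2
      refine mul_le_mul hsR.le ?_ hr0.le (abs_nonneg _)
      rw [abs_of_nonneg (by linarith)]
      linarith
    have e1 := (mul_le_mul_of_nonneg_right hLL hq).trans st0
    rw [div_mul_eq_mul_div, le_div_iff₀ (by positivity)]
    have e2 : r * (qn F (pc β (deriv α)) r φ +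
          (2 * qn F (pc (deriv (deriv β)) (fun τ => Real.exp (2 * τ) * α τ)) r φ + 2 * qn F (pc β (fun τ => deriv (deriv α) τ - deriv α τ)) r φ)) ≤
          K3 * (1 + 2 * KL ^ 4 + 32) * M ^ 4 * nn F φ := by
      have : K3 * (1 + 2 * KL ^ 4 + 32) * M ^ 4 * nn F φ = K3 * M ^ 4 * nn F φ + 2 * (K3 * (KL * M) ^ 4 * nn F φ) + 2 * (K3 * (2 * M) ^ 4 * nn F φ) := by ring
      rw [this]
      linarith
    have e3 : r * (qn F (pc β α) r φ * (R0 ^ 2 * r)) ≤ r * (KM * M ^ 4 * nn F φ) := by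
      calc r * (qn F (pc β α) r φ * (R0 ^ 2 * r)) = (R0 * r) ^ 2 * qn F (pc β α) r φ := by ring
        _ ≤ _ := e1
        _ = 18 * r * (r * (qn F (pc β (deriv α)) r φ +
          (2 * qn F (pc (deriv (deriv β)) (fun τ => Real.exp (2 * τ) * α τ)) r φ + 2 * qn F (pc β (fun τ => deriv (deriv α) τ - deriv α τ)) r φ))) := by ring
        _ ≤ 18 * r * (K3 * (1 + 2 * KL ^ 4 + 32) * M ^ 4 * nn F φ) := mul_le_mul_of_nonneg_left e2 (by positivity)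
        _ = r * (KM * M ^ 4 * nn F φ) := by
          rw [hKMd]
          ring
    exact le_of_mul_le_mul_left e3 hr0
  have hKF0 : 0 ≤ 324 * 200 ^ 4 * KF := by positivity
  have hM4 : 0 ≤ M ^ 4 := by positivity
  have hK1' : KM * M ^ 4 / (R0 ^ 2 * r) * nn F φ ≤ (KM + 324 * 200 ^ 4 * KF) * M ^ 4 / (R0 ^ 2 * r) * nn F φ := by
    refine mul_le_mul_of_nonneg_right ?_ hnn
    refine div_le_div_of_nonneg_right ?_ (by positivity)
    exact mul_le_mul_of_nonneg_right (by linarith) hM4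
  have hK2' : 324 * 200 ^ 4 * KF * M ^ 4 / (R0 ^ 2 * r) * nn F φ ≤ (KM + 324 * 200 ^ 4 * KF) * M ^ 4 / (R0 ^ 2 * r) * nn F φ := by
    refine mul_le_mul_of_nonneg_right ?_ hnn
    refine div_le_div_of_nonneg_right ?_ (by positivity)
    exact mul_le_mul_of_nonneg_right (by linarith) hM4
  rcases lt_or_ge lam (1 / 4) with hl | hl
  · refine (hfar ?_).trans hK2'
    rw [abs_of_nonneg (by nlinarith)]
    nlinarith
  · have hs0 : 0 ≤ Real.sqrt (lam - 1 / 4) := Real.sqrt_nonneg _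
    have hlam : lam = 1 / 4 + Real.sqrt (lam - 1 / 4) ^ 2 := by
      rw [Real.sq_sqrt (by linarith)]
      ring
    by_cases hsr : |Real.sqrt (lam - 1 / 4) - r| ≤ r / 100
    · exact (hmid _ hs0 hlam hsr).trans hK1'
    · refine (hfar ?_).trans hK2'
      have h1 : 1 / 4 + r ^ 2 - lam = -((Real.sqrt (lam - 1 / 4) - r) * (Real.sqrt (lam - 1 / 4) + r)) := by
        have h2 : (Real.sqrt (lam - 1 / 4) - r) * (Real.sqrt (lam - 1 / 4) + r) =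
            Real.sqrt (lam - 1 / 4) ^ 2 - r ^ 2 := by ring
        rw [h2, Real.sq_sqrt (by linarith)]
        ring
      rw [h1, abs_neg, abs_mul]
      have h3 : r / 100 ≤ |Real.sqrt (lam - 1 / 4) - r| := (not_le.1 hsr).le
      have h4 : r ≤ |Real.sqrt (lam - 1 / 4) + r| := by
        rw [abs_of_nonneg (by linarith)]
        linarith
      calc r ^ 2 / 200 ≤ r / 100 * r := by nlinarith
        _ ≤ |Real.sqrt (lam - 1 / 4) - r| * |Real.sqrt (lam - 1 / 4) + r| :=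
          mul_le_mul h3 h4 hr0.le (abs_nonneg _)

end Pool.Agent.T1
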